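import Mathlib
import Pool.Agent.Lib.MP_b30f32_co.Large

set_option autoImplicit false

open scoped ComplexOrder

namespace Pool.Agent.Results.MP_b30f32_co.FailsFromFour

/-- For a complex matrix `A` of size `n + 1` with rows and columns `0, 1, ..., n` (the row and
column `1` of the problem is the row and column `0` here) and real numbers `x`, `y`, `z`:
`x = a₀₀ · per B`, `B` the matrix `A` without the row and the column `0`;
`y = ∑_{k = 1}^{n} |a₀ₖ|² · per B_kk`, `B_kk` the matrix `A` without the rows and columns `0`, `k`;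
`z = per A`. -/
def Vals {n : ℕ} (A : Matrix (Fin (n + 1)) (Fin (n + 1)) ℂ) (x y z : ℝ) : Prop :=
  A 0 0 * (A.submatrix Fin.succ Fin.succ).permanent = (x : ℂ) ∧
  ∑ k : Fin n, (‖A 0 k.succ‖ : ℂ) ^ 2 *
      (A.submatrix (fun j : {j : Fin (n + 1) // j ≠ 0 ∧ j ≠ k.succ} => (j : Fin (n + 1)))
        (fun j : {j : Fin (n + 1) // j ≠ 0 ∧ j ≠ k.succ} => (j : Fin (n + 1)))).permanent
      = (y : ℂ) ∧
  A.permanent = (z : ℂ)

/-- Every positive semidefinite matrix has real values `x`, `y`, `z`. Drury's inequality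
`x² + y² ≤ z²` holds for all positive semidefinite matrices of size at most `3`; it fails for some
positive definite matrix of every size at least `4`; and for every `c < 2` even `x² + y² ≤ c z²`
fails for some positive definite matrix of every sufficiently large size. -/
theorem result :
    (∀ (n : ℕ) (A : Matrix (Fin (n + 1)) (Fin (n + 1)) ℂ), A.PosSemidef →
      ∃ x y z : ℝ, Vals A x y z) ∧
    (∀ n : ℕ, n + 1 ≤ 3 → ∀ A : Matrix (Fin (n + 1)) (Fin (n + 1)) ℂ, A.PosSemidef →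
      ∀ x y z : ℝ, Vals A x y z → x ^ 2 + y ^ 2 ≤ z ^ 2) ∧
    (∀ n : ℕ, 4 ≤ n + 1 → ∃ A : Matrix (Fin (n + 1)) (Fin (n + 1)) ℂ, A.PosDef ∧
      ∃ x y z : ℝ, Vals A x y z ∧ z ^ 2 < x ^ 2 + y ^ 2) ∧
    (∀ c : ℝ, c < 2 → ∃ N : ℕ, ∀ n : ℕ, N ≤ n →
      ∃ A : Matrix (Fin (n + 1)) (Fin (n + 1)) ℂ, A.PosDef ∧
      ∃ x y z : ℝ, Vals A x y z ∧ 0 < z ∧ c * z ^ 2 < x ^ 2 + y ^ 2) := by
  refine ⟨?_, ?_, ?_, ?_⟩
  · intro n A hA
    exact ⟨_, _, _, Lib.MP_b30f32_co.vals_herm hA.isHermitian⟩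
  · intro n hn A hA x y z hv
    rcases n with _ | _ | _ | n
    · exact Lib.MP_b30f32_co.small_one hv
    · exact Lib.MP_b30f32_co.small_two hA hv
    · exact Lib.MP_b30f32_co.small_three hA hv
    · omega
  · intro n hn
    obtain ⟨A, hA, x, y, z, hv, _, h⟩ := Lib.MP_b30f32_co.large n (by omega)
    rw [one_mul] at h
    exact ⟨A, hA, x, y, z, hv, h⟩
  · intro c hc
    exact Lib.MP_b30f32_co.asym hc

end Pool.Agent.Results.MP_b30f32_co.FailsFromFour
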